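import Mathlib
import Pool.Agent.U307.RAD.Stm

/-!
# Project RAD, package BES: the power series of the Bessel functions
-/

set_option autoImplicit false

open MeasureTheory Filter Topology Set

namespace Pool.Agent.U380.RAD

open Pool.Agent.U307.RAD

lemma norm_ee (t : ℝ) : ‖ee t‖ = 1 := by
  unfold ee
  rw [show 2 * (Real.pi : ℂ) * Complex.I * (t : ℂ) = ((2 * Real.pi * t : ℝ) : ℂ) * Complex.I by
    push_cast; ring]
  exact Complex.norm_exp_ofReal_mul_I _

lemma ee_ne (t : ℝ) : ee t ≠ 0 := by
  unfold ee; exact Complex.exp_ne_zero _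

lemma continuous_ee : Continuous ee := by
  unfold ee; fun_prop

lemma abs_re_ee_le (t : ℝ) : |(ee t).re| ≤ 1 :=
  (Complex.abs_re_le_norm _).trans (norm_ee t).le

lemma int_zpow (N : ℤ) : ∫ t in (0:ℝ)..1, ee t ^ N = if N = 0 then 1 else 0 := by
  split_ifs with h
  · subst h; simp
  · have e : ∀ t : ℝ, ee t ^ N = Complex.exp ((N * (2 * (Real.pi : ℂ) * Complex.I)) * (t : ℂ)) := by
      intro t
      unfold ee
      rw [← Complex.exp_int_mul]
      congr 1
      ring
    simp_rw [e]
    have hc : ((N : ℂ) * (2 * (Real.pi : ℂ) * Complex.I)) ≠ 0 := by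
      have h1 : (N : ℂ) ≠ 0 := by exact_mod_cast h
      have h2 : (Real.pi : ℂ) ≠ 0 := by exact_mod_cast Real.pi_ne_zero
      exact mul_ne_zero h1 (mul_ne_zero (mul_ne_zero two_ne_zero h2) Complex.I_ne_zero)
    rw [integral_exp_mul_complex hc]
    have h1 := Complex.exp_int_mul_two_pi_mul_I N
    simp [h1]

lemma re_eq (t : ℝ) : (((ee t).re : ℝ) : ℂ) = (ee t + (ee t)⁻¹) / 2 := by
  have h : (ee t)⁻¹ = (starRingEnd ℂ) (ee t) := Complex.inv_eq_conj (norm_ee t)
  rw [h, Complex.add_conj]
  push_cast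
  ring

/-- the Fourier coefficients of the powers of the cosine -/
noncomputable def cc (m k : ℕ) : ℂ := ∫ t in (0:ℝ)..1, ee t ^ m * (((ee t).re : ℝ) : ℂ) ^ k

lemma cc_eq (m k : ℕ) : cc m k =
    ∑ a ∈ Finset.range (k + 1), (if (m : ℤ) + 2 * a - k = 0 then (1 : ℂ) else 0) *
      ((k.choose a : ℂ) / 2 ^ k) := by
  unfold cc
  have h : ∀ t : ℝ, ee t ^ m * (((ee t).re : ℝ) : ℂ) ^ k =
      ∑ a ∈ Finset.range (k + 1), ee t ^ ((m : ℤ) + 2 * a - k) * ((k.choose a : ℂ) / 2 ^ k) := by
    intro t
    have h0 := ee_ne t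
    rw [re_eq, div_pow, add_pow, Finset.sum_div, Finset.mul_sum]
    refine Finset.sum_congr rfl fun a ha => ?_
    have hak : a ≤ k := by
      have := Finset.mem_range.1 ha
      omega
    have e : ee t ^ m * (ee t ^ a * (ee t)⁻¹ ^ (k - a)) = ee t ^ ((m : ℤ) + 2 * a - k) := by
      rw [inv_pow, ← zpow_natCast, ← zpow_natCast, ← zpow_natCast, ← zpow_neg, ← zpow_add₀ h0,
        ← zpow_add₀ h0]
      congr 1
      push_cast [hak]
      ring
    rw [← e]
    ring
  simp_rw [h]
  rw [intervalIntegral.integral_finsetSum]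
  · refine Finset.sum_congr rfl fun a _ => ?_
    rw [intervalIntegral.integral_mul_const, int_zpow]
  · intro a _
    refine Continuous.intervalIntegrable ?_ _ _
    exact (continuous_ee.zpow₀ _ fun t => Or.inl (ee_ne t)).mul continuous_const

lemma cc_diag (m j : ℕ) : cc m (m + 2 * j) = ((m + 2 * j).choose j : ℂ) / 2 ^ (m + 2 * j) := by
  rw [cc_eq, Finset.sum_eq_single j]
  · rw [if_pos (by push_cast; ring), one_mul]
  · intro a _ ha
    rw [if_neg, zero_mul]
    push_cast
    omega
  · intro h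
    exact absurd (Finset.mem_range.2 (by omega)) h

lemma cc_zero (m k : ℕ) (h : k ∉ Set.range (fun j : ℕ => m + 2 * j)) : cc m k = 0 := by
  rw [cc_eq]
  refine Finset.sum_eq_zero fun a _ => ?_
  rw [if_neg, zero_mul]
  intro h1
  exact h ⟨a, by show m + 2 * a = k; omega⟩

lemma hasSum_BB_k (m : ℕ) (x : ℝ) :
    HasSum (fun k : ℕ => (Complex.I * (x : ℂ)) ^ k / (k.factorial : ℂ) * cc m k) (BB m x) := by
  have key := intervalIntegral.hasSum_integral_of_dominated_convergence (μ := volume) (a := 0)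
    (b := 1)
    (F := fun (k : ℕ) (t : ℝ) => ee t ^ m * ((Complex.I * ((x * (ee t).re : ℝ) : ℂ)) ^ k /
      (k.factorial : ℂ)))
    (f := fun t => ee t ^ m * Complex.exp (Complex.I * ((x * (ee t).re : ℝ) : ℂ)))
    (fun k _ => |x| ^ k / (k.factorial : ℝ)) ?_ ?_ ?_ ?_ ?_
  · have e : (fun k : ℕ => (Complex.I * (x : ℂ)) ^ k / (k.factorial : ℂ) * cc m k) =
        fun k : ℕ => ∫ t in (0:ℝ)..1, ee t ^ m * ((Complex.I * ((x * (ee t).re : ℝ) : ℂ)) ^ k /
          (k.factorial : ℂ)) := by
      funext k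
      unfold cc
      rw [← intervalIntegral.integral_const_mul]
      congr 1
      funext t
      push_cast
      ring
    rw [e]
    exact key
  · intro k
    refine Continuous.aestronglyMeasurable ?_
    have := continuous_ee
    have h2 : Continuous fun t => (ee t).re := Complex.continuous_re.comp continuous_ee
    fun_prop
  · intro k
    refine Filter.Eventually.of_forall fun t _ => ?_
    rw [norm_mul, norm_pow, norm_ee, one_pow, one_mul, norm_div, norm_pow, norm_mul, Complex.norm_I,
      one_mul, Complex.norm_real, Complex.norm_natCast, Real.norm_eq_abs, abs_mul]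
    have h1 : |x| * |(ee t).re| ≤ |x| := by
      have := abs_re_ee_le t
      nlinarith [abs_nonneg x, abs_nonneg (ee t).re]
    gcongr
  · refine Filter.Eventually.of_forall fun t _ => ?_
    exact Real.summable_pow_div_factorial |x|
  · exact intervalIntegrable_const
  · refine Filter.Eventually.of_forall fun t _ => ?_
    have h := NormedSpace.expSeries_div_hasSum_exp (𝔸 := ℂ) (Complex.I * ((x * (ee t).re : ℝ) : ℂ))
    rw [← Complex.exp_eq_exp_ℂ] at h
    exact h.mul_left _

lemma norm_cc_le (m k : ℕ) : ‖cc m k‖ ≤ 1 := by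
  unfold cc
  have h := intervalIntegral.norm_integral_le_of_norm_le_const (a := (0:ℝ)) (b := 1) (C := 1)
    (f := fun t => ee t ^ m * (((ee t).re : ℝ) : ℂ) ^ k) ?_
  · simpa using h
  · intro t _
    rw [norm_mul, norm_pow, norm_ee, one_pow, one_mul, norm_pow, Complex.norm_real,
      Real.norm_eq_abs]
    exact pow_le_one₀ (abs_nonneg _) (abs_re_ee_le t)

lemma continuous_qq (n l : ℕ) : Continuous (qq n l) := by
  unfold qq uu
  fun_prop

/-- termwise integration -/
lemma hasSum_int (n l : ℕ) (x : ℝ) :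
    HasSum (fun k : ℕ => (Complex.I * (x : ℂ)) ^ k / (k.factorial : ℂ) * cc l k *
      ((∫ r in (0 : ℝ)..1, qq n l r * r ^ k : ℝ) : ℂ))
      (∫ r in (0 : ℝ)..1, (qq n l r : ℂ) * BB l (r * x)) := by
  obtain ⟨M, hM⟩ := (isCompact_Icc (a := (0:ℝ)) (b := 1)).exists_bound_of_continuousOn
    (continuous_qq n l).continuousOn
  have key := intervalIntegral.hasSum_integral_of_dominated_convergence (μ := volume) (a := 0)
    (b := 1)
    (F := fun (k : ℕ) (r : ℝ) => (qq n l r : ℂ) *
      ((Complex.I * ((r * x : ℝ) : ℂ)) ^ k / (k.factorial : ℂ) * cc l k))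
    (f := fun r => (qq n l r : ℂ) * BB l (r * x))
    (fun k _ => M * (|x| ^ k / (k.factorial : ℝ))) ?_ ?_ ?_ ?_ ?_
  · have e : (fun k : ℕ => (Complex.I * (x : ℂ)) ^ k / (k.factorial : ℂ) * cc l k *
        ((∫ r in (0 : ℝ)..1, qq n l r * r ^ k : ℝ) : ℂ)) =
        fun k : ℕ => ∫ r in (0:ℝ)..1, (qq n l r : ℂ) *
          ((Complex.I * ((r * x : ℝ) : ℂ)) ^ k / (k.factorial : ℂ) * cc l k) := by
      funext k
      rw [← intervalIntegral.integral_ofReal, ← intervalIntegral.integral_const_mul]
      congr 1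
      funext r
      push_cast
      ring
    rw [e]
    exact key
  · intro k
    refine Continuous.aestronglyMeasurable ?_
    have := continuous_qq n l
    fun_prop
  · intro k
    refine Filter.Eventually.of_forall fun r hr => ?_
    rw [Set.uIoc_of_le zero_le_one] at hr
    have hr1 : |r * x| ≤ |x| := by
      rw [abs_mul, abs_of_pos hr.1]
      nlinarith [abs_nonneg x, hr.2]
    have h1 : ‖qq n l r‖ ≤ M := hM r ⟨hr.1.le, hr.2⟩
    have h2 := norm_cc_le l k
    rw [norm_mul, norm_mul, norm_div, norm_pow, norm_mul, Complex.norm_I, one_mul,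
      Complex.norm_real, Complex.norm_real, Complex.norm_natCast, Real.norm_eq_abs (r * x)]
    have h3 : |r * x| ^ k / (k.factorial : ℝ) * ‖cc l k‖ ≤ |x| ^ k / (k.factorial : ℝ) := by
      calc |r * x| ^ k / (k.factorial : ℝ) * ‖cc l k‖
          ≤ |r * x| ^ k / (k.factorial : ℝ) * 1 := by gcongr
        _ = |r * x| ^ k / (k.factorial : ℝ) := mul_one _
        _ ≤ |x| ^ k / (k.factorial : ℝ) := by gcongr
    exact mul_le_mul h1 h3 (by positivity) ((norm_nonneg _).trans h1)
  · refine Filter.Eventually.of_forall fun t _ => ?_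
    exact (Real.summable_pow_div_factorial |x|).mul_left M
  · exact intervalIntegrable_const
  · refine Filter.Eventually.of_forall fun r _ => ?_
    have h := hasSum_BB_k l (r * x)
    exact h.mul_left _

lemma Mm_zero (n l j : ℕ) (h : j < n) : Mm n l j = 0 := by
  unfold Mm
  exact Finset.prod_eq_zero (Finset.mem_range.2 h) (by simp)

lemma Mm_eq (n l s : ℕ) : Mm n l (n + s) * ((s.factorial : ℝ) * ((2 * n + l + s).factorial : ℝ)) =
    ((n + s).factorial : ℝ) * ((n + s + l).factorial : ℝ) := by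
  have h1 : ∀ n' : ℕ, n' ≤ n → (∏ i ∈ Finset.range n', (((n + s : ℕ) : ℝ) - i)) *
      ((n + s - n').factorial : ℝ) = ((n + s).factorial : ℝ) := by
    intro n' hn'
    induction n' with
    | zero => simp
    | succ k ih =>
      rw [Finset.prod_range_succ, ← ih (by omega)]
      have : n + s - k = (n + s - (k + 1)) + 1 := by omega
      rw [this, Nat.factorial_succ]
      have h2 : (((n + s : ℕ) : ℝ) - k) = (((n + s - (k + 1)) + 1 : ℕ) : ℝ) := by
        rw [← this, Nat.cast_sub (by omega)]
      rw [h2]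
      push_cast
      ring
  have h2 : ∀ n' : ℕ, (∏ i ∈ Finset.range n', (((n + s : ℕ) : ℝ) + l + 1 + i)) *
      ((n + s + l).factorial : ℝ) = ((n + s + l + n').factorial : ℝ) := by
    intro n'
    induction n' with
    | zero => simp
    | succ k ih =>
      rw [Finset.prod_range_succ, show n + s + l + (k + 1) = (n + s + l + k) + 1 by ring,
        Nat.factorial_succ]
      push_cast at ih ⊢
      rw [← ih]
      ring
  unfold Mm
  rw [Finset.prod_div_distrib]
  have h3 := h1 n le_rfl
  have h4 := h2 n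
  have h5 : (∏ i ∈ Finset.range n, (((n + s : ℕ) : ℝ) + l + 1 + i)) ≠ 0 :=
    Finset.prod_ne_zero_iff.2 fun i _ => by positivity
  have h6 : n + s - n = s := by omega
  have h7 : n + s + l + n = 2 * n + l + s := by ring
  rw [h6] at h3
  rw [h7] at h4
  rw [← h4, ← h3]
  field_simp

theorem t_BES : S_MOM → S_BES := by
  intro hmom n l hn x
  have hA := hasSum_BB_k l x
  have hB := hasSum_int n l x
  have hC := hA.sub hB
  have hinj : Function.Injective (fun j : ℕ => l + 2 * j) := fun a b h => by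
    simp only at h
    omega
  have hinj2 : Function.Injective (fun s : ℕ => l + 2 * (n + s)) := fun a b h => by
    simp only at h
    omega
  have hinj3 : Function.Injective (fun s : ℕ => (2 * n + l) + 2 * s) := fun a b h => by
    simp only at h
    omega
  have hterm : ∀ j : ℕ, ((∫ r in (0 : ℝ)..1, qq n l r * r ^ (l + 2 * j) : ℝ) : ℂ) =
      1 - (Mm n l j : ℂ) := by
    intro j
    rw [(hmom n l hn).1 j]
    push_cast
    ring
  -- the left side
  have hD := (hinj3.hasSum_iff (f := fun k : ℕ => (Complex.I * (x : ℂ)) ^ k / (k.factorial : ℂ) *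
    cc (2 * n + l) k) (a := BB (2 * n + l) x) (by
      intro k hk
      rw [cc_zero _ _ hk, mul_zero])).2 (hasSum_BB_k (2 * n + l) x)
  have hE := (hinj2.hasSum_iff (f := fun k : ℕ => (Complex.I * (x : ℂ)) ^ k / (k.factorial : ℂ) *
      cc l k - (Complex.I * (x : ℂ)) ^ k / (k.factorial : ℂ) * cc l k *
      ((∫ r in (0 : ℝ)..1, qq n l r * r ^ k : ℝ) : ℂ))
      (a := BB l x - ∫ r in (0 : ℝ)..1, (qq n l r : ℂ) * BB l (r * x)) (by
      intro k hk
      by_cases hk' : k ∈ Set.range (fun j : ℕ => l + 2 * j)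
      · obtain ⟨j, rfl⟩ := hk'
        have hj : j < n := by
          by_contra hj
          exact hk ⟨j - n, by show l + 2 * (n + (j - n)) = l + 2 * j; omega⟩
        simp only
        rw [hterm j, Mm_zero n l j hj]
        simp
      · rw [cc_zero _ _ hk']
        simp)).2 hC
  have hfun : ((fun k : ℕ => (Complex.I * (x : ℂ)) ^ k / (k.factorial : ℂ) *
      cc l k - (Complex.I * (x : ℂ)) ^ k / (k.factorial : ℂ) * cc l k *
      ((∫ r in (0 : ℝ)..1, qq n l r * r ^ k : ℝ) : ℂ)) ∘ fun s : ℕ => l + 2 * (n + s)) =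
      (fun k : ℕ => (Complex.I * (x : ℂ)) ^ k / (k.factorial : ℂ) *
    cc (2 * n + l) k) ∘ fun s : ℕ => (2 * n + l) + 2 * s := by
    ext s
    simp only [Function.comp]
    rw [hterm (n + s), cc_diag, cc_diag]
    have hk : l + 2 * (n + s) = (2 * n + l) + 2 * s := by ring
    have h1 := Mm_eq n l s
    have h1' : (Mm n l (n + s) : ℂ) * ((s.factorial : ℂ) * ((2 * n + l + s).factorial : ℂ)) =
      ((n + s).factorial : ℂ) * ((n + s + l).factorial : ℂ) := by exact_mod_cast h1
    have h2 : ((l + 2 * (n + s)).choose (n + s) : ℂ) *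
        (((n + s).factorial : ℂ) * ((n + s + l).factorial : ℂ)) =
        ((l + 2 * (n + s)).factorial : ℂ) := by
      have := Nat.choose_mul_factorial_mul_factorial (n := l + 2 * (n + s)) (k := n + s) (by omega)
      have e : l + 2 * (n + s) - (n + s) = n + s + l := by omega
      rw [e] at this
      rw [← mul_assoc]
      exact_mod_cast this
    have h3 : (((2 * n + l) + 2 * s).choose s : ℂ) *
        ((s.factorial : ℂ) * ((2 * n + l + s).factorial : ℂ)) =
        (((2 * n + l) + 2 * s).factorial : ℂ) := by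
      have := Nat.choose_mul_factorial_mul_factorial (n := (2 * n + l) + 2 * s) (k := s) (by omega)
      have e : (2 * n + l) + 2 * s - s = 2 * n + l + s := by omega
      rw [e] at this
      rw [← mul_assoc]
      exact_mod_cast this
    rw [hk] at h2 ⊢
    have hs : ((s.factorial : ℂ) * ((2 * n + l + s).factorial : ℂ)) ≠ 0 :=
      mul_ne_zero (by exact_mod_cast s.factorial_ne_zero)
        (by exact_mod_cast (2 * n + l + s).factorial_ne_zero)
    have h4 : (((2 * n + l) + 2 * s).choose (n + s) : ℂ) * (Mm n l (n + s) : ℂ) =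
        (((2 * n + l) + 2 * s).choose s : ℂ) := by
      apply mul_right_cancel₀ hs
      rw [h3, mul_assoc, h1', h2]
    rw [← h4]
    ring
  rw [hfun] at hE
  exact hD.unique hE

end Pool.Agent.U380.RAD
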